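import Mathlib

/-!
MP_2d238a_lc: between two sequences of Weihrauch problems, the first below the second, there is
always an intermediate problem.
-/

namespace Pool.Agent.Results.MP_2d238a_lc.No

open Nat.Partrec

/-- A problem: `f p` is the set of admissible outputs, the domain is where it is nonempty. -/
abbrev Prob := (ℕ → ℕ) → Set (ℕ → ℕ)

/-- The functional with machine `m` sends `p` to `q`: for each `n` the machine answers at `n` on
some prefix of `p`, and all its answers at `n` on prefixes of `p` are `q n`. -/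
def Out (m : List ℕ → ℕ → Option ℕ) (p q : ℕ → ℕ) : Prop :=
  ∀ n, (∃ k, m ((List.range k).map p) n = some (q n)) ∧
    ∀ k y, m ((List.range k).map p) n = some y → y = q n

/-- The pair of two points of Baire space. -/
def join (p q : ℕ → ℕ) (n : ℕ) : ℕ := if n % 2 = 0 then p (n / 2) else q (n / 2)

/-- Weihrauch reducibility. -/
def Red (f g : Prob) : Prop :=
  ∃ m m' : List ℕ → ℕ → Option ℕ, Computable₂ m ∧ Computable₂ m' ∧ ∀ p, (f p).Nonempty →
    ∃ x, Out m p x ∧ (g x).Nonempty ∧ ∀ q ∈ g x, ∃ r, Out m' (join p q) r ∧ r ∈ f p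

def Cd (c : Code) (m : List ℕ → ℕ → Option ℕ) : Prop :=
  ∀ σ n y, y ∈ c.eval (Encodable.encode (σ, n)) ↔ m σ n = some y

theorem cd_ex {m : List ℕ → ℕ → Option ℕ} (h : Computable₂ m) : ∃ c, Cd c m := by
  obtain ⟨c, hc⟩ := Code.exists_code.1 (Computable.ofOption h)
  refine ⟨c, fun σ n y => ?_⟩
  rw [hc]
  simp only [Encodable.encodek]
  simp

theorem univ {cd : ℕ → Code} (h1 : Primrec cd) {r : ℕ → ℕ} (h2 : Primrec r) (h3 : ∀ i, r i ≤ i + 2) :
    ∃ M : List ℕ → ℕ → Option ℕ, Computable₂ M ∧
      ∀ x m q, Cd (cd (x 0)) m → Out m (fun i => x (r i)) q → Out M x q := by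
  let G : List ℕ × ℕ → ℕ → Option ℕ := fun a j => Code.evaln a.1.length (cd (a.1.getD 0 0))
    (Encodable.encode ((List.range j).map fun i => a.1.getD (r i) 0, a.2))
  have hG : Primrec₂ G := Code.primrec_evaln.comp
    (((Primrec.list_length.comp (Primrec.fst.comp Primrec.fst)).pair (h1.comp
      ((Primrec.list_getD 0).comp (Primrec.fst.comp Primrec.fst) (Primrec.const 0)))).pair
      (Primrec.encode.comp ((Primrec.list_map (Primrec.list_range.comp Primrec.snd)
        ((Primrec.list_getD 0).comp (Primrec.fst.comp (Primrec.fst.comp Primrec.fst))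
          (h2.comp Primrec.snd)).to₂).pair (Primrec.snd.comp Primrec.fst))))
  have hM : Primrec fun a : List ℕ × ℕ => ((List.range (a.1.length - 2)).filterMap (G a)).head? :=
    Primrec.list_head?.comp (Primrec.listFilterMap (Primrec.list_range.comp (Primrec.nat_sub.comp
      (Primrec.list_length.comp Primrec.fst) (Primrec.const 2))) hG)
  refine ⟨fun σ n => ((List.range (σ.length - 2)).filterMap (G (σ, n))).head?, hM.to_comp,
    fun x m q c o n => ?_⟩
  have e : ∀ k j, j < k - 2 → G ((List.range k).map x, n) j =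
      Code.evaln k (cd (x 0)) (Encodable.encode ((List.range j).map fun i => x (r i), n)) :=
    fun k j hj => by
      have : ((List.range j).map fun i => ((List.range k).map x).getD (r i) 0) =
          (List.range j).map fun i => x (r i) := List.map_congr_left fun i hi => by
        have := h3 i
        have := List.mem_range.1 hi
        simp [show r i < k by omega]
      simp only [G, this]
      simp [show 0 < k by omega]
  have a : ∀ k y, ((List.range (((List.range k).map x).length - 2)).filterMap
      (G ((List.range k).map x, n))).head? = some y → y = q n := fun k y h => by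
    obtain ⟨j, j1, j2⟩ := List.mem_filterMap.1 (List.mem_of_mem_head? h)
    rw [e k j (by simpa using j1)] at j2
    exact (o n).2 j y ((c _ _ _).1 (Code.evaln_sound j2))
  refine ⟨?_, a⟩
  obtain ⟨j, hj⟩ := (o n).1
  obtain ⟨s, hs⟩ := Code.evaln_complete.1 ((c _ _ _).2 hj)
  refine ⟨s + j + 3, ?_⟩
  have : q n ∈ (List.range (((List.range (s + j + 3)).map x).length - 2)).filterMap
      (G ((List.range (s + j + 3)).map x, n)) := List.mem_filterMap.2
    ⟨j, by simp, by rw [e _ _ (by omega)]; exact Code.evaln_mono (by omega) hs⟩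
  obtain ⟨y, hy⟩ := Option.isSome_iff_exists.1
    (List.isSome_head?.2 (List.ne_nil_of_mem this))
  rw [← a _ y hy]
  exact hy

theorem result (f h : ℕ → Prob) (hfh : ∀ n m, Red (f n) (h m)) :
    ∃ g : Prob, ∀ n m, Red (f n) g ∧ Red g (h m) := by
  choose A B hA hB hR using hfh
  choose a ha using fun n m => cd_ex (hA n m)
  choose b hb using fun n m => cd_ex (hB n m)
  let t : ℕ → ℕ := fun n => Encodable.encode (n, (List.range (n + 1)).map fun m => (a n m, b n m))
  have ti : ∀ {n n'}, t n = t n' → n = n' := fun e => (Prod.mk.inj (Encodable.encode_injective e)).1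
  refine ⟨fun x => {q | ∃ n, x 0 = t n ∧ q ∈ f n fun i => x (i + 1)}, fun n m => ⟨?_, ?_⟩⟩
  · refine ⟨fun σ k => (t n :: σ)[k]?, fun σ k => σ[2 * k + 1]?,
      (Primrec.list_getElem?.comp (Primrec.list_cons.comp (Primrec.const _) Primrec.fst)
        Primrec.snd).to_comp,
      (Primrec.list_getElem?.comp Primrec.fst (Primrec.succ.comp
        (Primrec.nat_mul.comp (Primrec.const 2) Primrec.snd))).to_comp,
      fun p ⟨q, hq⟩ => ⟨fun k => Nat.casesOn k (t n) p, fun k => ?_, ⟨q, n, rfl, hq⟩, ?_⟩⟩
    · cases k with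
      | zero => simp [eq_comm]
      | succ k => exact ⟨⟨k + 1, by simp⟩, fun j y e => by
          obtain ⟨_, rfl⟩ := List.getElem?_eq_some_iff.1 e
          simp⟩
    · rintro q ⟨n', e, hq⟩
      obtain rfl := ti e
      refine ⟨q, fun k => ?_, hq⟩
      have : (2 * k + 1) / 2 = k := by omega
      exact ⟨⟨2 * k + 2, by simp [join, this]⟩, fun j y e => by
        obtain ⟨_, rfl⟩ := List.getElem?_eq_some_iff.1 e
        simp [join, this]⟩
  · obtain ⟨cd, c1, c2⟩ : ∃ cd : ℕ → Code × Code, Primrec cd ∧ ∀ n, cd (t n) = (a n m, b n m) := by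
      let D : ℕ → ℕ × List (Code × Code) := Denumerable.ofNat _
      have hD : Primrec D := Primrec.ofNat _
      refine ⟨fun s => if (D s).1 < m then
        ((List.range m).map fun n => (a n m, b n m)).getD (D s).1 default
        else (D s).2.getD m default, Primrec.ite
          (Primrec.nat_lt.comp (Primrec.fst.comp hD) (Primrec.const m))
          ((Primrec.list_getD _).comp (Primrec.const _) (Primrec.fst.comp hD))
          ((Primrec.list_getD _).comp (Primrec.snd.comp hD) (Primrec.const m)), fun n => ?_⟩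
      simp only [D, t, Denumerable.ofNat_encode]
      split_ifs with l
      · simp [l]
      · simp [show m < n + 1 by omega]
    obtain ⟨M, m1, m2⟩ := univ (Primrec.fst.comp c1) Primrec.succ (fun i => by omega)
    obtain ⟨M', k1, k2⟩ := univ (Primrec.snd.comp c1) (r := fun i => if i % 2 = 0 then i + 2 else i)
      (Primrec.ite (Primrec.eq.comp (Primrec.nat_mod.comp Primrec.id (Primrec.const 2))
        (Primrec.const 0)) (Primrec.succ.comp Primrec.succ) Primrec.id)
      (fun i => by split_ifs <;> omega)
    refine ⟨M, M', m1, k1, ?_⟩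
    rintro x ⟨q, n, e, hq⟩
    obtain ⟨y, y1, y2, y3⟩ := hR n m _ ⟨q, hq⟩
    refine ⟨y, m2 x _ y (by rw [e, c2]; exact ha n m) y1, y2, fun z hz => ?_⟩
    obtain ⟨r, r1, r2⟩ := y3 z hz
    refine ⟨r, k2 _ _ r (by rw [show join x z 0 = t n from e, c2]; exact hb n m) ?_, n, e, r2⟩
    convert r1 using 2 with i
    by_cases l : i % 2 = 0 <;> simp [join, l]

end Pool.Agent.Results.MP_2d238a_lc.No
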